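import Mathlib

set_option autoImplicit false

/-!
# Structures and formulas without equality: strict maps, the indiscernibility relation, quotients
-/

namespace Pool.Agent.Helper11x.EF

open FirstOrder FirstOrder.Language Set

variable {L : FirstOrder.Language.{0, 0}}

/-- No occurrence of the equality symbol. -/
inductive EqFree : ∀ {α : Type} {n : ℕ}, L.BoundedFormula α n → Prop
  | falsum {α : Type} {n : ℕ} : EqFree (BoundedFormula.falsum : L.BoundedFormula α n)
  | rel {α : Type} {n l : ℕ} (R : L.Relations l) (ts : Fin l → L.Term (α ⊕ Fin n)) :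
      EqFree (BoundedFormula.rel R ts)
  | imp {α : Type} {n : ℕ} (φ ψ : L.BoundedFormula α n) :
      EqFree φ → EqFree ψ → EqFree (BoundedFormula.imp φ ψ)
  | all {α : Type} {n : ℕ} (φ : L.BoundedFormula α (n + 1)) :
      EqFree φ → EqFree (BoundedFormula.all φ)

/-- Strict homomorphisms. -/
structure SH {M N : Type} (S : L.Structure M) (S' : L.Structure N) (p : M → N) : Prop where
  fn : ∀ (n : ℕ) (f : L.Functions n) (v : Fin n → M), p (S.funMap f v) = S'.funMap f (p ∘ v)
  rl : ∀ (n : ℕ) (R : L.Relations n) (v : Fin n → M), S.RelMap R v ↔ S'.RelMap R (p ∘ v)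

theorem term_real {M N : Type} {S : L.Structure M} {S' : L.Structure N} {p : M → N}
    (h : SH S S' p) {α : Type} (t : L.Term α) (v : α → M) :
    p (@Term.realize L M S α v t) = @Term.realize L N S' α (p ∘ v) t := by
  induction t with
  | var x => rfl
  | func f ts ih =>
    show p (S.funMap f _) = S'.funMap f _
    rw [h.fn]
    congr 1
    funext i
    exact ih i

theorem real_iff {M N : Type} {S : L.Structure M} {S' : L.Structure N} {p : M → N}
    (h : SH S S' p) (hp : Function.Surjective p) {α : Type} {n : ℕ} {φ : L.BoundedFormula α n}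
    (hφ : EqFree φ) : ∀ (v : α → M) (xs : Fin n → M),
    @BoundedFormula.Realize L M S α n φ v xs ↔
      @BoundedFormula.Realize L N S' α n φ (p ∘ v) (p ∘ xs) := by
  induction hφ with
  | falsum => intro v xs; exact Iff.rfl
  | rel R ts =>
    intro v xs
    show S.RelMap R _ ↔ S'.RelMap R _
    rw [h.rl]
    have : (p ∘ fun i => @Term.realize L M S _ (Sum.elim v xs) (ts i)) =
        fun i => @Term.realize L N S' _ (Sum.elim (p ∘ v) (p ∘ xs)) (ts i) := by
      funext i
      show p _ = _
      rw [term_real h, Sum.comp_elim]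
    rw [this]
  | imp φ ψ _ _ ih1 ih2 =>
    intro v xs
    show (_ → _) ↔ (_ → _)
    rw [ih1, ih2]
  | all φ _ ih =>
    intro v xs
    show (∀ a, _) ↔ (∀ a, _)
    constructor
    · intro H b
      obtain ⟨a, rfl⟩ := hp b
      have := (ih v (Fin.snoc xs a)).1 (H a)
      rwa [Fin.comp_snoc] at this
    · intro H a
      have := H (p a)
      rw [← Fin.comp_snoc] at this
      exact (ih v (Fin.snoc xs a)).2 this

theorem model_iff {M N : Type} {S : L.Structure M} {S' : L.Structure N} {p : M → N}
    (h : SH S S' p) (hp : Function.Surjective p) {T : L.Theory} (hT : ∀ φ ∈ T, EqFree φ) :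
    @Theory.Model L M S T ↔ @Theory.Model L N S' T := by
  constructor
  · intro H
    refine @Theory.Model.mk L N S' T fun φ hφ => ?_
    have h1 := H.realize_of_mem φ hφ
    have h2 := (real_iff h hp (hT φ hφ) default default).1 h1
    have e1 : (p ∘ (default : Empty → M)) = default := Subsingleton.elim _ _
    have e2 : (p ∘ (default : Fin 0 → M)) = default := Subsingleton.elim _ _
    rw [e1, e2] at h2
    exact h2
  · intro H
    refine @Theory.Model.mk L M S T fun φ hφ => ?_
    have h1 := H.realize_of_mem φ hφ
    refine (real_iff h hp (hT φ hφ) default default).2 ?_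
    have e1 : (p ∘ (default : Empty → M)) = default := Subsingleton.elim _ _
    have e2 : (p ∘ (default : Fin 0 → M)) = default := Subsingleton.elim _ _
    rw [e1, e2]
    exact h1

/-- Relations compatible with the structure, in each argument. -/
structure Comp {M : Type} (S : L.Structure M) (r : M → M → Prop) : Prop where
  fn : ∀ (n : ℕ) (f : L.Functions n) (c : Fin n → M) (i : Fin n) (x y : M), r x y →
    r (S.funMap f (Function.update c i x)) (S.funMap f (Function.update c i y))
  rl : ∀ (n : ℕ) (R : L.Relations n) (c : Fin n → M) (i : Fin n) (x y : M), r x y →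
    (S.RelMap R (Function.update c i x) ↔ S.RelMap R (Function.update c i y))

/-- Indiscernibility. -/
def Ind {M : Type} (S : L.Structure M) (x y : M) : Prop := ∃ r, Comp S r ∧ r x y

theorem comp_ind {M : Type} (S : L.Structure M) : Comp S (Ind S) := by
  constructor
  · rintro n f c i x y ⟨r, hr, h⟩
    exact ⟨r, hr, hr.fn n f c i x y h⟩
  · rintro n R c i x y ⟨r, hr, h⟩
    exact hr.rl n R c i x y h

theorem ind_refl {M : Type} (S : L.Structure M) (x : M) : Ind S x x := by
  refine ⟨Eq, ⟨?_, ?_⟩, rfl⟩
  · rintro n f c i x y rfl; rfl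
  · rintro n R c i x y rfl; rfl

theorem ind_symm {M : Type} {S : L.Structure M} {x y : M} (h : Ind S x y) : Ind S y x := by
  obtain ⟨r, hr, h⟩ := h
  refine ⟨fun a b => r b a, ⟨?_, ?_⟩, h⟩
  · intro n f c i x y h; exact hr.fn n f c i y x h
  · intro n R c i x y h; exact (hr.rl n R c i y x h).symm

theorem ind_trans {M : Type} {S : L.Structure M} {x y z : M} (h : Ind S x y) (h' : Ind S y z) :
    Ind S x z := by
  obtain ⟨r, hr, h⟩ := h
  obtain ⟨r', hr', h'⟩ := h'
  refine ⟨fun a b => ∃ c, r a c ∧ r' c b, ⟨?_, ?_⟩, ⟨y, h, h'⟩⟩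
  · rintro n f c i x y ⟨z, h1, h2⟩
    exact ⟨_, hr.fn n f c i x z h1, hr'.fn n f c i z y h2⟩
  · rintro n R c i x y ⟨z, h1, h2⟩
    exact (hr.rl n R c i x z h1).trans (hr'.rl n R c i z y h2)

/-- The indiscernibility relation as a setoid. -/
def st {M : Type} (S : L.Structure M) : Setoid M :=
  ⟨Ind S, ⟨ind_refl S, ind_symm, ind_trans⟩⟩

/-- Changing all coordinates. -/
theorem multi {M : Type} {n : ℕ} (P : (Fin n → M) → (Fin n → M) → Prop) (r : M → M → Prop)
    (hrefl : ∀ v, P v v) (htr : ∀ u v w, P u v → P v w → P u w)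
    (h : ∀ (c : Fin n → M) (i : Fin n) (x y : M), r x y →
      P (Function.update c i x) (Function.update c i y))
    (v w : Fin n → M) (hvw : ∀ i, r (v i) (w i)) : P v w := by
  classical
  have key : ∀ s : Finset (Fin n), P v (fun i => if i ∈ s then w i else v i) := by
    intro s
    induction s using Finset.induction_on with
    | empty => simpa using hrefl v
    | insert a s ha ih =>
      refine htr _ _ _ ih ?_
      have h1 : (fun i => if i ∈ s then w i else v i) =
          Function.update (fun i => if i ∈ s then w i else v i) a (v a) := by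
        funext i
        by_cases hi : i = a
        · subst hi; simp [ha]
        · simp [Function.update_of_ne hi]
      have h2 : (fun i => if i ∈ insert a s then w i else v i) =
          Function.update (fun i => if i ∈ s then w i else v i) a (w a) := by
        funext i
        by_cases hi : i = a
        · subst hi; simp
        · simp [Function.update_of_ne hi, Finset.mem_insert, hi]
      rw [h1, h2]
      exact h _ a _ _ (hvw a)
  simpa using key Finset.univ

theorem ind_fn {M : Type} (S : L.Structure M) {n : ℕ} (f : L.Functions n) (v w : Fin n → M)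
    (h : ∀ i, Ind S (v i) (w i)) : Ind S (S.funMap f v) (S.funMap f w) :=
  multi (fun v w => Ind S (S.funMap f v) (S.funMap f w)) (Ind S) (fun v => ind_refl S _)
    (fun _ _ _ h1 h2 => ind_trans h1 h2) (fun c i x y h => (comp_ind S).fn n f c i x y h) v w h

theorem ind_rl {M : Type} (S : L.Structure M) {n : ℕ} (R : L.Relations n) (v w : Fin n → M)
    (h : ∀ i, Ind S (v i) (w i)) : S.RelMap R v ↔ S.RelMap R w :=
  multi (fun v w => S.RelMap R v ↔ S.RelMap R w) (Ind S) (fun v => Iff.rfl)
    (fun _ _ _ h1 h2 => h1.trans h2) (fun c i x y h => (comp_ind S).rl n R c i x y h) v w h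

/-- The structure on the quotient by a map `p` with section `s`. -/
@[reducible] def push {M N : Type} (S : L.Structure M) (p : M → N) (s : N → M) :
    L.Structure N where
  funMap f v := p (S.funMap f (s ∘ v))
  RelMap R v := S.RelMap R (s ∘ v)

theorem push_sh {M N : Type} (S : L.Structure M) (p : M → N) (s : N → M)
    (hps : ∀ x, p (s x) = x) (hk : ∀ x y, p x = p y → Ind S x y)
    (hk' : ∀ x y, Ind S x y → p x = p y) : SH S (push S p s) p := by
  have h : ∀ x, Ind S x (s (p x)) := fun x => hk _ _ (hps (p x)).symm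
  constructor
  · intro n f v
    exact hk' _ _ (ind_fn S f v _ fun i => h (v i))
  · intro n R v
    exact ind_rl S R v _ fun i => h (v i)

/-- The indiscernibility relation is the pull back under strict surjections. -/
theorem ind_iff {M N : Type} {S : L.Structure M} {S' : L.Structure N} {p : M → N}
    (h : SH S S' p) (hp : Function.Surjective p) (x y : M) : Ind S x y ↔ Ind S' (p x) (p y) := by
  have hup : ∀ {n : ℕ} (c : Fin n → M) (i : Fin n) (x : M),
      p ∘ Function.update c i x = Function.update (p ∘ c) i (p x) := by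
    intro n c i x
    exact Function.comp_update p c i x
  constructor
  · rintro ⟨r, hr, h1⟩
    refine ⟨fun a b => ∃ x y, p x = a ∧ p y = b ∧ r x y, ⟨?_, ?_⟩, ⟨x, y, rfl, rfl, h1⟩⟩
    · rintro n f c i _ _ ⟨x, y, rfl, rfl, h2⟩
      choose q hq using hp
      have hc : c = p ∘ (q ∘ c) := by funext j; exact (hq (c j)).symm
      refine ⟨S.funMap f (Function.update (q ∘ c) i x), S.funMap f (Function.update (q ∘ c) i y),
        ?_, ?_, hr.fn n f _ i x y h2⟩
      · rw [h.fn, hup, ← hc]
      · rw [h.fn, hup, ← hc]
    · rintro n R c i _ _ ⟨x, y, rfl, rfl, h2⟩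
      choose q hq using hp
      have hc : c = p ∘ (q ∘ c) := by funext j; exact (hq (c j)).symm
      have := hr.rl n R (q ∘ c) i x y h2
      rwa [h.rl, h.rl, hup, hup, ← hc] at this
  · rintro ⟨r, hr, h1⟩
    refine ⟨fun a b => r (p a) (p b), ⟨?_, ?_⟩, h1⟩
    · intro n f c i x y h2
      show r (p _) (p _)
      rw [h.fn, h.fn, hup, hup]
      exact hr.fn n f _ i _ _ h2
    · intro n R c i x y h2
      rw [h.rl, h.rl, hup, hup]
      exact hr.rl n R _ i _ _ h2

theorem iso_iff {M N : Type} {S : L.Structure M} {S' : L.Structure N} :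
    Nonempty (@FirstOrder.Language.Equiv L M N S S') ↔ ∃ σ : M ≃ N, SH S S' σ := by
  constructor
  · rintro ⟨e⟩
    exact ⟨@FirstOrder.Language.Equiv.toEquiv L M N S S' e,
      ⟨fun n f v => @FirstOrder.Language.Equiv.map_fun' L M N S S' e n f v,
        fun n R v => (@FirstOrder.Language.Equiv.map_rel' L M N S S' e n R v).symm⟩⟩
  · rintro ⟨σ, h⟩
    exact ⟨@FirstOrder.Language.Equiv.mk L M N S S' σ (fun f v => h.fn _ f v)
      (fun R v => (h.rl _ R v).symm)⟩

theorem sh_comp {M N P : Type} {S : L.Structure M} {S' : L.Structure N} {S'' : L.Structure P}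
    {p : M → N} {q : N → P} (h : SH S S' p) (h' : SH S' S'' q) : SH S S'' (q ∘ p) := by
  constructor
  · intro n f v
    show q (p _) = _
    rw [h.fn, h'.fn]
    rfl
  · intro n R v
    rw [h.rl, h'.rl]
    rfl

theorem sh_symm {M N : Type} {S : L.Structure M} {S' : L.Structure N} {σ : M ≃ N}
    (h : SH S S' σ) : SH S' S σ.symm := by
  have h0 : ∀ (n : ℕ) (v : Fin n → N), σ ∘ (σ.symm ∘ v) = v := by
    intro n v; funext i; exact σ.apply_symm_apply _
  constructor
  · intro n f v
    rw [Equiv.symm_apply_eq, h.fn, h0]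
  · intro n R v
    rw [h.rl, h0]

end Pool.Agent.Helper11x.EF
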