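import Pool.Agent.Helper11x.EF.Basic

set_option autoImplicit false

/-!
# A structure with infinitely many indiscernibility classes
-/

namespace Pool.Agent.Helper11x.EF

open FirstOrder FirstOrder.Language Set

variable {L : FirstOrder.Language.{0, 0}}

/-- A structure on `ℕ` given by a map `p` to a structure `Q` and a choice of function values. -/
@[reducible] def blow {M N : Type} (Q : L.Structure N) (p : M → N)
    (ch : ∀ n, L.Functions n → (Fin n → M) → M) : L.Structure M where
  funMap f v := ch _ f v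
  RelMap R v := Q.RelMap R (p ∘ v)

theorem blow_sh {M N : Type} (Q : L.Structure N) (p : M → N)
    (ch : ∀ n, L.Functions n → (Fin n → M) → M)
    (h : ∀ n (f : L.Functions n) (v : Fin n → M), p (ch n f v) = Q.funMap f (p ∘ v)) :
    SH (blow Q p ch) Q p :=
  ⟨fun n f v => h n f v, fun _ _ _ => Iff.rfl⟩

/-- A continuous family of pairwise non-isomorphic structures. -/
structure Fam (f : (ℕ → Bool) → L.Structure ℕ) : Prop where
  inj : ∀ x y, Nonempty (@FirstOrder.Language.Equiv L ℕ ℕ (f x) (f y)) → x = y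
  rl : ∀ (n : ℕ) (R : L.Relations n) (a : Fin n → ℕ),
    IsClopen {x : ℕ → Bool | @Structure.RelMap L ℕ (f x) n R a}
  fn : ∀ (n : ℕ) (F : L.Functions n) (a : Fin n → ℕ) (b : ℕ),
    IsOpen {x : ℕ → Bool | @Structure.funMap L ℕ (f x) n F a = b}

noncomputable def E5 : ℕ ≃ Σ i : ℕ, Fin (8 * i + 5) :=
  (nonempty_equiv_of_countable (α := ℕ) (β := Σ i : ℕ, Fin (8 * i + 5))).some

/-- The cut point. -/
def cu (b : Bool) (i : ℕ) : ℕ := if b = true then 4 * i + 2 else 4 * i + 1

theorem cu_le (b : Bool) (i : ℕ) : cu b i ≤ 8 * i + 5 := by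
  unfold cu; split_ifs <;> omega

theorem cu_pos (b : Bool) (i : ℕ) : 0 < cu b i := by
  unfold cu; split_ifs <;> omega

theorem cu_lt (b : Bool) (i : ℕ) : cu b i < 8 * i + 5 := by
  unfold cu; split_ifs <;> omega

/-- The class of a point of the sum. -/
def gA (x : ℕ → Bool) (u : Σ i : ℕ, Fin (8 * i + 5)) : ℕ :=
  if (u.2 : ℕ) < cu (x u.1) u.1 then 2 * u.1 else 2 * u.1 + 1

/-- The class of a point. -/
noncomputable def pA (x : ℕ → Bool) (m : ℕ) : ℕ := gA x (E5 m)

theorem pA_mk (x : ℕ → Bool) (i : ℕ) (k : Fin (8 * i + 5)) :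
    pA x (E5.symm ⟨i, k⟩) = if (k : ℕ) < cu (x i) i then 2 * i else 2 * i + 1 := by
  unfold pA
  rw [E5.apply_symm_apply]
  rfl

/-- Representatives of the classes. -/
noncomputable def sA (n : ℕ) : ℕ :=
  if n % 2 = 0 then E5.symm ⟨n / 2, ⟨0, by omega⟩⟩
  else E5.symm ⟨n / 2, ⟨8 * (n / 2) + 4, by omega⟩⟩

theorem pA_sA (x : ℕ → Bool) (n : ℕ) : pA x (sA n) = n := by
  unfold sA
  by_cases h : n % 2 = 0
  · rw [if_pos h, pA_mk, if_pos (cu_pos _ _)]
    omega
  · have : ¬ (8 * (n / 2) + 4 < cu (x (n / 2)) (n / 2)) := by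
      unfold cu; split_ifs <;> omega
    rw [if_neg h, pA_mk, if_neg this]
    omega

theorem pA_surj (x : ℕ → Bool) : Function.Surjective (pA x) := fun n => ⟨sA n, pA_sA x n⟩

theorem fib_even (x : ℕ → Bool) (i : ℕ) : {m | pA x m = 2 * i} =
    (fun k : Fin (8 * i + 5) => E5.symm ⟨i, k⟩) '' {k | (k : ℕ) < cu (x i) i} := by
  ext m
  simp only [mem_setOf_eq, mem_image]
  obtain ⟨⟨j, k⟩, rfl⟩ := E5.symm.surjective m
  rw [pA_mk]
  simp only [EmbeddingLike.apply_eq_iff_eq]
  constructor
  · intro h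
    split_ifs at h with h1
    · have : j = i := by omega
      subst this
      exact ⟨k, h1, rfl⟩
    · omega
  · rintro ⟨k', hk', h⟩
    have h1 : i = j := congrArg Sigma.fst h
    subst h1
    have h2 : k' = k := eq_of_heq (Sigma.mk.inj h).2
    subst h2
    rw [if_pos hk']

theorem fib_odd (x : ℕ → Bool) (i : ℕ) : {m | pA x m = 2 * i + 1} =
    (fun k : Fin (8 * i + 5) => E5.symm ⟨i, k⟩) '' {k | (k : ℕ) < cu (x i) i}ᶜ := by
  ext m
  simp only [mem_setOf_eq, mem_image, mem_compl_iff]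
  obtain ⟨⟨j, k⟩, rfl⟩ := E5.symm.surjective m
  rw [pA_mk]
  simp only [EmbeddingLike.apply_eq_iff_eq]
  constructor
  · intro h
    split_ifs at h with h1
    · omega
    · have : j = i := by omega
      subst this
      exact ⟨k, h1, rfl⟩
  · rintro ⟨k', hk', h⟩
    have h1 : i = j := congrArg Sigma.fst h
    subst h1
    have h2 : k' = k := eq_of_heq (Sigma.mk.inj h).2
    subst h2
    rw [if_neg hk']

theorem inj5 (i : ℕ) : Function.Injective (fun k : Fin (8 * i + 5) => E5.symm ⟨i, k⟩) := by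
  intro k k' h
  have := E5.symm.injective h
  exact eq_of_heq (Sigma.mk.inj this).2

theorem card_lt (n c : ℕ) (h : c ≤ n) : ({k : Fin n | (k : ℕ) < c}).ncard = c := by
  have h1 : {k : Fin n | (k : ℕ) < c} = Set.range (Fin.castLE h) := by
    ext k
    simp only [mem_setOf_eq, mem_range]
    constructor
    · intro hk; exact ⟨⟨k, hk⟩, rfl⟩
    · rintro ⟨j, rfl⟩; exact j.2
  rw [h1, ← Set.image_univ, Set.ncard_image_of_injective _ (Fin.castLE_injective h),
    Set.ncard_univ, Nat.card_fin]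

theorem card_even (x : ℕ → Bool) (i : ℕ) : {m | pA x m = 2 * i}.ncard = cu (x i) i := by
  rw [fib_even, Set.ncard_image_of_injective _ (inj5 i), card_lt _ _ (cu_le _ _)]

theorem card_odd (x : ℕ → Bool) (i : ℕ) :
    {m | pA x m = 2 * i + 1}.ncard = 8 * i + 5 - cu (x i) i := by
  rw [fib_odd, Set.ncard_image_of_injective _ (inj5 i)]
  have h1 := Set.ncard_add_ncard_compl {k : Fin (8 * i + 5) | (k : ℕ) < cu (x i) i}
  rw [card_lt _ _ (cu_le _ _), Nat.card_fin] at h1
  omega

theorem code (x : ℕ → Bool) (i : ℕ) :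
    (∃ n, {m | pA x m = n}.ncard = 4 * i + 2) ↔ x i = true := by
  constructor
  · rintro ⟨n, hn⟩
    rcases Nat.even_or_odd' n with ⟨j, rfl | rfl⟩
    · rw [card_even] at hn
      unfold cu at hn
      split_ifs at hn with h
      · have : j = i := by omega
        rw [← this]; exact h
      · omega
    · rw [card_odd] at hn
      unfold cu at hn
      split_ifs at hn with h <;> omega
  · intro h
    exact ⟨2 * i, by rw [card_even, h]; simp [cu]⟩

theorem pA_cont (m : ℕ) : Continuous fun x : ℕ → Bool => pA x m := by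
  have : (fun x : ℕ → Bool => pA x m) =
      (fun b : Bool => gA (fun _ => b) (E5 m)) ∘ (fun x : ℕ → Bool => x (E5 m).1) := by
    funext x; rfl
  rw [this]
  exact continuous_of_discreteTopology.comp (continuous_apply _)

theorem clopen_of {n : ℕ} (p : (ℕ → Bool) → ℕ → ℕ) (hp : ∀ m, Continuous fun x => p x m)
    (a : Fin n → ℕ) (D : Set (Fin n → ℕ)) : IsClopen {x | p x ∘ a ∈ D} := by
  have : Continuous fun x => p x ∘ a := continuous_pi fun j => hp (a j)
  exact (isClopen_discrete D).preimage this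

/-- The number of points indiscernible from a point is an invariant. -/
theorem card_inv {S S' : L.Structure ℕ} {σ : ℕ ≃ ℕ} (e : SH S S' σ) (m : ℕ) :
    {m' | Ind S m m'}.ncard = {m' | Ind S' (σ m) m'}.ncard := by
  have h : {m' | Ind S' (σ m) m'} = σ '' {m' | Ind S m m'} := by
    ext m'
    simp only [mem_setOf_eq, mem_image]
    constructor
    · intro h
      refine ⟨σ.symm m', ?_, σ.apply_symm_apply m'⟩
      rw [ind_iff e σ.surjective, σ.apply_symm_apply]
      exact h
    · rintro ⟨m', h, rfl⟩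
      exact (ind_iff e σ.surjective _ _).1 h
  rw [h, Set.ncard_image_of_injective _ σ.injective]

theorem caseA (S : L.Structure ℕ) (hinf : Infinite (Quotient (st S))) :
    ∃ (Q : L.Structure ℕ) (p : ℕ → ℕ) (q : (ℕ → Bool) → ℕ → ℕ)
      (f : (ℕ → Bool) → L.Structure ℕ), Function.Surjective p ∧ SH S Q p ∧
      (∀ x, Function.Surjective (q x)) ∧ (∀ x, SH (f x) Q (q x)) ∧ Fam f := by
  obtain ⟨e⟩ : Nonempty (Quotient (st S) ≃ ℕ) := nonempty_equiv_of_countable
  let p0 : ℕ → ℕ := fun m => e (Quotient.mk (st S) m)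
  let s0 : ℕ → ℕ := fun n => (e.symm n).out
  have hps : ∀ n, p0 (s0 n) = n := by
    intro n
    show e (Quotient.mk (st S) (e.symm n).out) = n
    rw [Quotient.out_eq, e.apply_symm_apply]
  have hk : ∀ x y, p0 x = p0 y ↔ Ind S x y := by
    intro x y
    show e _ = e _ ↔ _
    rw [e.apply_eq_iff_eq]
    exact Quotient.eq (r := st S)
  let Q := push S p0 s0
  have hSQ : SH S Q p0 := push_sh S p0 s0 hps (fun x y => (hk x y).1) (fun x y => (hk x y).2)
  have hp0 : Function.Surjective p0 := fun n => ⟨s0 n, hps n⟩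
  have hQ : ∀ a b, Ind Q a b → a = b := by
    intro a b hab
    obtain ⟨x, rfl⟩ := hp0 a
    obtain ⟨y, rfl⟩ := hp0 b
    exact (hk x y).2 ((ind_iff hSQ hp0 x y).2 hab)
  let f : (ℕ → Bool) → L.Structure ℕ := fun x =>
    blow Q (pA x) (fun n F v => sA (Q.funMap F (pA x ∘ v)))
  have hf : ∀ x, SH (f x) Q (pA x) := fun x => blow_sh Q _ _ fun n F v => pA_sA x _
  refine ⟨Q, p0, pA, f, hp0, hSQ, pA_surj, hf, ⟨?_, ?_, ?_⟩⟩
  · have key : ∀ (x : ℕ → Bool) (i : ℕ),
        x i = true ↔ ∃ m, {m' | Ind (f x) m m'}.ncard = 4 * i + 2 := by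
      intro x i
      rw [← code x i]
      have h1 : ∀ m, {m' | Ind (f x) m m'} = {m' | pA x m' = pA x m} := by
        intro m
        ext m'
        simp only [mem_setOf_eq]
        rw [ind_iff (hf x) (pA_surj x)]
        constructor
        · intro h; exact (hQ _ _ h).symm
        · intro h; rw [h]; exact ind_refl _ _
      constructor
      · rintro ⟨n, hn⟩
        obtain ⟨m, rfl⟩ := pA_surj x n
        exact ⟨m, by rw [h1]; exact hn⟩
      · rintro ⟨m, hm⟩
        exact ⟨pA x m, by rw [h1] at hm; exact hm⟩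
    intro x y hxy
    obtain ⟨σ, e'⟩ := iso_iff.1 hxy
    have h2 : ∀ i, x i = true ↔ y i = true := by
      intro i
      rw [key, key]
      constructor
      · rintro ⟨m, hm⟩
        exact ⟨σ m, by rw [← card_inv e']; exact hm⟩
      · rintro ⟨m, hm⟩
        refine ⟨σ.symm m, ?_⟩
        rw [card_inv e', σ.apply_symm_apply]
        exact hm
    funext i
    exact Bool.eq_iff_iff.2 (h2 i)
  · intro n R a
    exact clopen_of pA pA_cont a {v | Q.RelMap R v}
  · intro n F a b
    exact (clopen_of pA pA_cont a {v | sA (Q.funMap F v) = b}).isOpen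

end Pool.Agent.Helper11x.EF
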