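import Pool.Agent.Helper11x.EF.CaseA

set_option autoImplicit false

/-!
# Function symbols of positive arity, infinitely many constants
-/

namespace Pool.Agent.Helper11x.EF

open FirstOrder FirstOrder.Language Set Function

variable {L : FirstOrder.Language.{0, 0}}

/-- Primes above `K`. -/
noncomputable def pr (K i : ℕ) : ℕ := Nat.nth Nat.Prime (K + i)

theorem pr_prime (K i : ℕ) : (pr K i).Prime := Nat.prime_nth_prime _

theorem pr_gt (K i : ℕ) : K < pr K i := by
  have := Nat.add_two_le_nth_prime (K + i)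
  unfold pr
  omega

theorem pr_inj (K : ℕ) {i j : ℕ} (h : pr K i = pr K j) : i = j := by
  have := (Nat.nth_strictMono Nat.infinite_setOf_prime).injective h
  omega

noncomputable def E3 (K : ℕ) : ℕ ≃ Σ i : ℕ, ZMod (pr K i) := by
  haveI : ∀ i, NeZero (pr K i) := fun i => ⟨(pr_prime K i).ne_zero⟩
  exact (nonempty_equiv_of_countable (α := ℕ) (β := Σ i : ℕ, ZMod (pr K i))).some

/-- The permutation with the cycles coded by `x`. -/
noncomputable def gP (K : ℕ) (x : ℕ → Bool) (u : Σ i : ℕ, ZMod (pr K i)) : Σ i : ℕ, ZMod (pr K i) :=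
  if x u.1 = true then ⟨u.1, u.2 + 1⟩ else u

noncomputable def ps (K : ℕ) (x : ℕ → Bool) (m : ℕ) : ℕ := (E3 K).symm (gP K x (E3 K m))

theorem ps_iter (K : ℕ) (x : ℕ → Bool) (i : ℕ) (k : ZMod (pr K i)) (h : x i = true) (n : ℕ) :
    (ps K x)^[n] ((E3 K).symm ⟨i, k⟩) = (E3 K).symm ⟨i, k + n⟩ := by
  induction n with
  | zero => simp
  | succ n ih =>
    rw [iterate_succ_apply', ih]
    unfold ps
    rw [Equiv.apply_symm_apply]
    unfold gP
    rw [if_pos h]
    simp only
    congr 2
    push_cast
    ring

theorem ps_min (K : ℕ) (x : ℕ → Bool) (i : ℕ) (k : ZMod (pr K i)) :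
    minimalPeriod (ps K x) ((E3 K).symm ⟨i, k⟩) = if x i = true then pr K i else 1 := by
  split_ifs with h
  · apply Nat.dvd_antisymm
    · apply IsPeriodicPt.minimalPeriod_dvd
      show (ps K x)^[_] _ = _
      rw [ps_iter _ _ _ _ h]
      simp
    · have h1 := isPeriodicPt_minimalPeriod (ps K x) ((E3 K).symm ⟨i, k⟩)
      have h2 : (ps K x)^[minimalPeriod (ps K x) ((E3 K).symm ⟨i, k⟩)] ((E3 K).symm ⟨i, k⟩) =
        (E3 K).symm ⟨i, k⟩ := h1
      rw [ps_iter _ _ _ _ h] at h2
      have h3 := eq_of_heq (Sigma.mk.inj ((E3 K).symm.injective h2)).2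
      rw [add_eq_left] at h3
      exact (ZMod.natCast_eq_zero_iff _ _).1 h3
  · rw [minimalPeriod_eq_one_iff_isFixedPt]
    show ps K x _ = _
    unfold ps
    rw [Equiv.apply_symm_apply]
    unfold gP
    rw [if_neg h]

theorem ps_cont (K m : ℕ) : Continuous fun x : ℕ → Bool => ps K x m := by
  have : (fun x : ℕ → Bool => ps K x m) =
      (fun b : Bool => ps K (fun _ => b) m) ∘ (fun x : ℕ → Bool => x (E3 K m).1) := by
    funext x; rfl
  rw [this]
  exact continuous_of_discreteTopology.comp (continuous_apply _)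

/-- Periodic points in finite sets. -/
theorem exists_periodic {A : Type} [Finite A] [Nonempty A] (f : A → A) :
    ∃ a, 0 < minimalPeriod f a := by
  obtain ⟨a0⟩ := ‹Nonempty A›
  obtain ⟨m, n, hmn, h⟩ := Finite.exists_ne_map_eq_of_infinite fun n : ℕ => f^[n] a0
  wlog hlt : m < n generalizing m n
  · exact this n m hmn.symm h.symm (by omega)
  refine ⟨f^[m] a0, IsPeriodicPt.minimalPeriod_pos (n := n - m) (by omega) ?_⟩
  show f^[n - m] (f^[m] a0) = f^[m] a0
  rw [← iterate_add_apply, Nat.sub_add_cancel hlt.le]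
  exact h.symm

theorem caseB1 (S : L.Structure ℕ) (hfin : Finite (Quotient (st S))) (n : ℕ)
    (F : L.Functions (n + 1)) :
    ∃ (N : Type) (Q : L.Structure N) (p : ℕ → N) (q : (ℕ → Bool) → ℕ → N)
      (f : (ℕ → Bool) → L.Structure ℕ), Function.Surjective p ∧ SH S Q p ∧
      (∀ x, Function.Surjective (q x)) ∧ (∀ x, SH (f x) Q (q x)) ∧ Fam f := by
  classical
  have hne : Nonempty (Quotient (st S)) := ⟨Quotient.mk (st S) 0⟩
  let p0 : ℕ → Quotient (st S) := Quotient.mk (st S)
  let s0 : Quotient (st S) → ℕ := Quotient.out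
  have hps : ∀ n, p0 (s0 n) = n := fun n => Quotient.out_eq n
  have hk : ∀ x y, p0 x = p0 y ↔ Ind S x y := fun x y => Quotient.eq (r := st S)
  let Q := push S p0 s0
  have hSQ : SH S Q p0 := push_sh S p0 s0 hps (fun x y => (hk x y).1) (fun x y => (hk x y).2)
  obtain ⟨E⟩ : Nonempty (ℕ ≃ Quotient (st S) × ℕ) := nonempty_equiv_of_countable
  let q0 : ℕ → Quotient (st S) := fun m => (E m).1
  haveI : Fintype (Quotient (st S)) := Fintype.ofFinite _
  let K := Fintype.card (Quotient (st S))
  let ch : (ℕ → Bool) → ∀ n, L.Functions n → (Fin n → ℕ) → ℕ := fun x n G v =>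
    E.symm (Q.funMap G (q0 ∘ v), if h : 0 < n then ps K x (E (v ⟨0, h⟩)).2 else 0)
  let f : (ℕ → Bool) → L.Structure ℕ := fun x => blow Q q0 (ch x)
  have hf : ∀ x, SH (f x) Q q0 := fun x => blow_sh Q _ _ fun n F v => by
    show (E (E.symm _)).1 = _
    rw [E.apply_symm_apply]
  have hq0 : Function.Surjective q0 := fun a => ⟨E.symm (a, 0), by
    show (E (E.symm _)).1 = _
    rw [E.apply_symm_apply]⟩
  refine ⟨Quotient (st S), Q, p0, fun _ => q0, f, fun a => ⟨s0 a, hps a⟩, hSQ, fun _ => hq0, hf,
    ⟨?_, ?_, ?_⟩⟩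
  · -- the invariant
    let D : L.Structure ℕ → ℕ → ℕ := fun S u => S.funMap F (fun _ => u)
    let δ : Quotient (st S) → Quotient (st S) := fun a => Q.funMap F (fun _ => a)
    have hD : ∀ x u, E (D (f x) u) = Prod.map δ (ps K x) (E u) := by
      intro x u
      show E (E.symm _) = _
      rw [E.apply_symm_apply]
      rw [dif_pos (Nat.succ_pos n)]
      rfl
    have hmin : ∀ x u, minimalPeriod (D (f x)) u =
        Nat.lcm (minimalPeriod δ (E u).1) (minimalPeriod (ps K x) (E u).2) := by
      intro x u
      rw [← minimalPeriod_prodMap, minimalPeriod_eq_minimalPeriod_iff]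
      intro m
      have hsc : Semiconj E (D (f x)) (Prod.map δ (ps K x)) := fun u => hD x u
      have h1 := (hsc.iterate_right m).eq u
      show (D (f x))^[m] u = u ↔ (Prod.map δ (ps K x))^[m] (E u) = E u
      rw [← h1, E.apply_eq_iff_eq]
    have key : ∀ x i, x i = true ↔ ∃ u, 0 < minimalPeriod (D (f x)) u ∧
        pr K i ∣ minimalPeriod (D (f x)) u := by
      intro x i
      constructor
      · intro h
        obtain ⟨a, ha⟩ := exists_periodic δ
        refine ⟨E.symm (a, (E3 K).symm ⟨i, 0⟩), ?_, ?_⟩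
        · rw [hmin, E.apply_symm_apply, ps_min, if_pos h]
          exact Nat.lcm_pos ha (pr_prime K i).pos
        · rw [hmin, E.apply_symm_apply, ps_min, if_pos h]
          exact Nat.dvd_lcm_right _ _
      · rintro ⟨u, hu, hd⟩
        rw [hmin] at hu hd
        have h1 : 0 < minimalPeriod δ (E u).1 := by
          rcases Nat.eq_zero_or_pos (minimalPeriod δ (E u).1) with h | h
          · rw [h, Nat.lcm_zero_left] at hu; omega
          · exact h
        have h2 : minimalPeriod δ (E u).1 ≤ K := minimalPeriod_le_card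
        have h3 : pr K i ∣ minimalPeriod δ (E u).1 * minimalPeriod (ps K x) (E u).2 :=
          hd.trans (Nat.lcm_dvd_mul _ _)
        rcases (pr_prime K i).dvd_mul.1 h3 with h4 | h4
        · have h5 := Nat.le_of_dvd h1 h4
          have h6 := pr_gt K i
          omega
        · obtain ⟨⟨j, k⟩, hjk⟩ := (E3 K).symm.surjective (E u).2
          rw [← hjk, ps_min] at h4
          split_ifs at h4 with h5
          · have h6 : pr K i = pr K j := (Nat.prime_dvd_prime_iff_eq (pr_prime K i)
              (pr_prime K j)).1 h4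
            rw [pr_inj K h6]; exact h5
          · exact absurd (Nat.dvd_one.1 h4) (pr_prime K i).ne_one
    intro x y hxy
    obtain ⟨σ, e'⟩ := iso_iff.1 hxy
    have hσ : ∀ u, minimalPeriod (D (f x)) u = minimalPeriod (D (f y)) (σ u) := by
      intro u
      rw [minimalPeriod_eq_minimalPeriod_iff]
      intro m
      have hsc : Semiconj σ (D (f x)) (D (f y)) := fun u => e'.fn _ F _
      have h1 := (hsc.iterate_right m).eq u
      show (D (f x))^[m] u = u ↔ (D (f y))^[m] (σ u) = σ u
      rw [← h1, σ.apply_eq_iff_eq]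
    have h2 : ∀ i, x i = true ↔ y i = true := by
      intro i
      rw [key, key]
      constructor
      · rintro ⟨m, hm⟩
        exact ⟨σ m, by rw [← hσ]; exact hm⟩
      · rintro ⟨m, hm⟩
        refine ⟨σ.symm m, ?_⟩
        rw [hσ, σ.apply_symm_apply]
        exact hm
    funext i
    exact Bool.eq_iff_iff.2 (h2 i)
  · intro n R a
    by_cases h : Q.RelMap R (q0 ∘ a)
    · have : {x : ℕ → Bool | @Structure.RelMap L ℕ (f x) n R a} = univ :=
        eq_univ_of_forall fun x => h
      rw [this]; exact isClopen_univ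
    · have : {x : ℕ → Bool | @Structure.RelMap L ℕ (f x) n R a} = ∅ :=
        eq_empty_of_forall_notMem fun x hx => h hx
      rw [this]; exact isClopen_empty
  · intro n G a b
    have hc : Continuous fun x : ℕ → Bool => ch x n G a := by
      have h1 : Continuous fun x : ℕ → Bool =>
          (if h : 0 < n then ps K x (E (a ⟨0, h⟩)).2 else 0 : ℕ) := by
        by_cases h : 0 < n
        · simp only [h, dite_true]
          exact ps_cont K _
        · simp only [h, dite_false]
          exact continuous_const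
      have h2 : Continuous fun k : ℕ => E.symm (Q.funMap G (q0 ∘ a), k) :=
        continuous_of_discreteTopology
      exact h2.comp h1
    exact (isOpen_discrete ({b} : Set ℕ)).preimage hc

theorem caseB2 (S : L.Structure ℕ) (hfin : Finite (Quotient (st S)))
    (hL : Infinite (L.Functions 0)) :
    ∃ (N : Type) (Q : L.Structure N) (p : ℕ → N) (q : (ℕ → Bool) → ℕ → N)
      (f : (ℕ → Bool) → L.Structure ℕ), Function.Surjective p ∧ SH S Q p ∧
      (∀ x, Function.Surjective (q x)) ∧ (∀ x, SH (f x) Q (q x)) ∧ Fam f := by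
  classical
  have hne : Nonempty (Quotient (st S)) := ⟨Quotient.mk (st S) 0⟩
  let p0 : ℕ → Quotient (st S) := Quotient.mk (st S)
  let s0 : Quotient (st S) → ℕ := Quotient.out
  have hps : ∀ n, p0 (s0 n) = n := fun n => Quotient.out_eq n
  have hk : ∀ x y, p0 x = p0 y ↔ Ind S x y := fun x y => Quotient.eq (r := st S)
  let Q := push S p0 s0
  have hSQ : SH S Q p0 := push_sh S p0 s0 hps (fun x y => (hk x y).1) (fun x y => (hk x y).2)
  obtain ⟨E⟩ : Nonempty (ℕ ≃ Quotient (st S) × ℕ) := nonempty_equiv_of_countable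
  let q0 : ℕ → Quotient (st S) := fun m => (E m).1
  -- infinitely many constants with the same value
  obtain ⟨a0, ha0⟩ := Finite.exists_infinite_fiber
    (fun c : L.Functions 0 => Q.funMap c (default : Fin 0 → Quotient (st S)))
  let c : ℕ ↪ _ := Infinite.natEmbedding
    ((fun c : L.Functions 0 => Q.funMap c (default : Fin 0 → Quotient (st S))) ⁻¹' {a0})
  let cc : ℕ → L.Functions 0 := fun j => (c j).1
  have hcc : Function.Injective cc := fun i j h => c.injective (Subtype.ext h)
  have hca : ∀ j, Q.funMap (cc j) (default : Fin 0 → Quotient (st S)) = a0 := fun j => (c j).2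
  let tag : (ℕ → Bool) → ∀ n, L.Functions n → ℕ := fun x n => match n with
    | 0 => fun G => if ∃ j, cc (j + 1) = G ∧ x j = false then 1 else 0
    | _ + 1 => fun _ => 0
  let ch : (ℕ → Bool) → ∀ n, L.Functions n → (Fin n → ℕ) → ℕ := fun x n G v =>
    E.symm (Q.funMap G (q0 ∘ v), tag x n G)
  let f : (ℕ → Bool) → L.Structure ℕ := fun x => blow Q q0 (ch x)
  have hf : ∀ x, SH (f x) Q q0 := fun x => blow_sh Q _ _ fun n F v => by
    show (E (E.symm _)).1 = _
    rw [E.apply_symm_apply]
  have hq0 : Function.Surjective q0 := fun a => ⟨E.symm (a, 0), by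
    show (E (E.symm _)).1 = _
    rw [E.apply_symm_apply]⟩
  have htag : ∀ x j, tag x 0 (cc (j + 1)) = if x j = false then 1 else 0 := by
    intro x j
    show (if ∃ i, cc (i + 1) = cc (j + 1) ∧ x i = false then 1 else 0) = _
    have : (∃ i, cc (i + 1) = cc (j + 1) ∧ x i = false) ↔ x j = false := by
      constructor
      · rintro ⟨i, h1, h2⟩
        have := hcc h1
        have : i = j := by omega
        rw [← this]; exact h2
      · intro h; exact ⟨j, rfl, h⟩
    simp only [this]
  have htag0 : ∀ x, tag x 0 (cc 0) = 0 := by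
    intro x
    show (if ∃ i, cc (i + 1) = cc 0 ∧ x i = false then 1 else 0) = _
    rw [if_neg]
    rintro ⟨i, h1, -⟩
    have := hcc h1
    omega
  refine ⟨Quotient (st S), Q, p0, fun _ => q0, f, fun a => ⟨s0 a, hps a⟩, hSQ, fun _ => hq0, hf,
    ⟨?_, ?_, ?_⟩⟩
  · have key : ∀ x j, x j = true ↔ (f x).funMap (cc (j + 1)) (default : Fin 0 → ℕ) =
        (f x).funMap (cc 0) (default : Fin 0 → ℕ) := by
      intro x j
      show _ ↔ E.symm (Q.funMap (cc (j + 1)) (q0 ∘ default), tag x 0 (cc (j + 1))) =
        E.symm (Q.funMap (cc 0) (q0 ∘ default), tag x 0 (cc 0))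
      rw [E.symm.apply_eq_iff_eq, Prod.mk.injEq, htag, htag0]
      have e1 : (q0 ∘ (default : Fin 0 → ℕ)) = default := Subsingleton.elim _ _
      rw [e1, hca, hca]
      simp only [true_and]
      cases x j <;> simp
    intro x y hxy
    obtain ⟨σ, e'⟩ := iso_iff.1 hxy
    have h2 : ∀ i, x i = true ↔ y i = true := by
      intro i
      rw [key, key]
      have e1 : (σ ∘ (default : Fin 0 → ℕ)) = default := Subsingleton.elim _ _
      have h3 := e'.fn _ (cc (i + 1)) default
      have h4 := e'.fn _ (cc 0) default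
      rw [e1] at h3 h4
      rw [← h3, ← h4, σ.apply_eq_iff_eq]
    funext i
    exact Bool.eq_iff_iff.2 (h2 i)
  · intro n R a
    by_cases h : Q.RelMap R (q0 ∘ a)
    · have : {x : ℕ → Bool | @Structure.RelMap L ℕ (f x) n R a} = univ :=
        eq_univ_of_forall fun x => h
      rw [this]; exact isClopen_univ
    · have : {x : ℕ → Bool | @Structure.RelMap L ℕ (f x) n R a} = ∅ :=
        eq_empty_of_forall_notMem fun x hx => h hx
      rw [this]; exact isClopen_empty
  · intro n G a b
    have h1 : Continuous fun x : ℕ → Bool => tag x n G := by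
      cases n with
      | zero =>
        by_cases h : ∃ j, cc (j + 1) = G
        · obtain ⟨j, rfl⟩ := h
          have : (fun x : ℕ → Bool => tag x 0 (cc (j + 1))) =
            (fun b : Bool => if b = false then 1 else 0) ∘ (fun x : ℕ → Bool => x j) := by
            funext x
            exact htag x j
          rw [this]
          exact continuous_of_discreteTopology.comp (continuous_apply _)
        · have : (fun x : ℕ → Bool => tag x 0 G) = fun _ => 0 := by
            funext x
            show (if ∃ j, cc (j + 1) = G ∧ x j = false then 1 else 0) = 0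
            rw [if_neg]
            rintro ⟨j, h1, -⟩
            exact h ⟨j, h1⟩
          rw [this]
          exact continuous_const
      | succ n => exact continuous_const
    have h2 : Continuous fun k : ℕ => E.symm (Q.funMap G (q0 ∘ a), k) :=
      continuous_of_discreteTopology
    exact (isOpen_discrete ({b} : Set ℕ)).preimage (h2.comp h1)

end Pool.Agent.Helper11x.EF
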