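import Pool.Agent.Helper11x.EF.CaseA

set_option autoImplicit false

/-!
# Finitely many indiscernibility classes, no function symbols of positive arity
-/

namespace Pool.Agent.Helper11x.EF

open FirstOrder FirstOrder.Language Set Function

/-! ### Cantor families avoiding finitely many maps -/

theorem shrink1 {X : Type} [TopologicalSpace X] [T2Space X] (h : X → X) (hc : Continuous h)
    (f : (ℕ → Bool) → X) (hf : Continuous f) (hi : Function.Injective f) :
    ∃ g : (ℕ → Bool) → (ℕ → Bool), Continuous g ∧ Function.Injective g ∧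
      ∀ x y, f (g y) = h (f (g x)) → x = y := by
  by_cases H : ∀ x, h (f x) = f x
  · refine ⟨id, continuous_id, injective_id, fun x y hxy => ?_⟩
    simp only [id] at hxy
    rw [H] at hxy
    exact (hi hxy).symm
  · push Not at H
    obtain ⟨x0, hx0⟩ := H
    obtain ⟨A, B, hA, hB, hxA, hxB, hAB⟩ := t2_separation hx0
    have hV : IsOpen {x | h (f x) ∈ A ∧ f x ∈ B} :=
      (hA.preimage (hc.comp hf)).inter (hB.preimage hf)
    obtain ⟨I, u, hu, hIu⟩ := isOpen_pi_iff.1 hV x0 ⟨hxA, hxB⟩
    let n := I.sup id + 1
    have hn : ∀ i ∈ I, i < n := fun i hi =>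
      Nat.lt_succ_of_le (Finset.le_sup (f := id) hi)
    let g : (ℕ → Bool) → (ℕ → Bool) := fun y i => if i < n then x0 i else y (i - n)
    have hgV : ∀ y, h (f (g y)) ∈ A ∧ f (g y) ∈ B := by
      intro y
      refine hIu ?_
      intro i hi
      show (if i < n then x0 i else y (i - n)) ∈ u i
      rw [if_pos (hn i hi)]
      exact (hu i hi).2
    refine ⟨g, ?_, ?_, fun x y hxy => ?_⟩
    · refine continuous_pi fun i => ?_
      show Continuous fun y : ℕ → Bool => if i < n then x0 i else y (i - n)
      by_cases hi : i < n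
      · simp only [hi, if_true]; exact continuous_const
      · simp only [hi, if_false]; exact continuous_apply _
    · intro y y' hyy
      funext i
      have := congrFun hyy (i + n)
      have h1 : ¬ (i + n < n) := by omega
      simp only [g, h1, if_false, Nat.add_sub_cancel] at this
      exact this
    · exfalso
      have h1 := (hgV y).2
      rw [hxy] at h1
      exact Set.disjoint_left.1 hAB (hgV x).1 h1

theorem shrink {X : Type} [TopologicalSpace X] [T2Space X] (l : List (X → X))
    (hl : ∀ h ∈ l, Continuous h) (f : (ℕ → Bool) → X) (hf : Continuous f)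
    (hi : Function.Injective f) :
    ∃ g : (ℕ → Bool) → (ℕ → Bool), Continuous g ∧ Function.Injective g ∧
      ∀ h ∈ l, ∀ x y, f (g y) = h (f (g x)) → x = y := by
  induction l with
  | nil => exact ⟨id, continuous_id, injective_id, by simp⟩
  | cons a l ih =>
    obtain ⟨g1, c1, i1, h1⟩ := ih fun h hh => hl h (List.mem_cons_of_mem _ hh)
    obtain ⟨g2, c2, i2, h2⟩ := shrink1 a (hl a List.mem_cons_self) (f ∘ g1) (hf.comp c1)
      (hi.comp i1)
    refine ⟨g1 ∘ g2, c1.comp c2, i1.comp i2, fun h hh x y hxy => ?_⟩
    rcases List.mem_cons.1 hh with rfl | hh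
    · exact h2 x y hxy
    · exact i2 (h1 h hh _ _ hxy)

/-- Maps with the same fibre sizes are conjugate. -/
theorem conj {A : Type} (p q : ℕ → A)
    (h : ∀ a, Nat.card {m // p m = a} = Nat.card {m // q m = a})
    (hp : Function.Surjective p) (hq : Function.Surjective q) :
    ∃ σ : ℕ ≃ ℕ, ∀ m, q (σ m) = p m := by
  have h1 : ∀ a, Nonempty ({m // p m = a} ≃ {m // q m = a}) := by
    intro a
    haveI : Nonempty {m // p m = a} := by
      obtain ⟨m, hm⟩ := hp a; exact ⟨⟨m, hm⟩⟩
    haveI : Nonempty {m // q m = a} := by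
      obtain ⟨m, hm⟩ := hq a; exact ⟨⟨m, hm⟩⟩
    by_cases hf : Finite {m // p m = a}
    · have h2 : 0 < Nat.card {m // p m = a} := Nat.card_pos
      have h3 : Finite {m // q m = a} := Nat.finite_of_card_ne_zero (by rw [← h]; omega)
      haveI := hf
      exact ⟨(Finite.equivFin _).trans ((finCongr (h a)).trans (Finite.equivFin _).symm)⟩
    · have hi : Infinite {m // p m = a} := not_finite_iff_infinite.1 hf
      have hi' : Infinite {m // q m = a} := by
        by_contra hc
        have hc' : Finite {m // q m = a} := not_infinite_iff_finite.1 hc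
        have h2 : 0 < Nat.card {m // q m = a} := Nat.card_pos
        rw [← h, Nat.card_eq_zero_of_infinite] at h2
        omega
      exact nonempty_equiv_of_countable
  let e := fun a => (h1 a).some
  let σ : ℕ ≃ ℕ := (Equiv.sigmaFiberEquiv p).symm.trans
    ((Equiv.sigmaCongrRight e).trans (Equiv.sigmaFiberEquiv q))
  refine ⟨σ, fun m => ?_⟩
  show q ((e (p m) ⟨m, rfl⟩ : {m' // q m' = p m}) : ℕ) = p m
  exact (e (p m) ⟨m, rfl⟩).2

/-! ### The space of finite structures -/

variable {L : FirstOrder.Language.{0, 0}}

/-- Relations and constants on `{0, ..., k - 1}`. -/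
abbrev XS (L : FirstOrder.Language.{0, 0}) (k : ℕ) : Type :=
  ((n : ℕ) → L.Relations n → (Fin n → Fin k) → Bool) × (L.Functions 0 → Fin k)

/-- The function part. -/
def fnc {k : ℕ} (hL : ∀ n, IsEmpty (L.Functions (n + 1))) (c : L.Functions 0 → Fin k) :
    ∀ n, L.Functions n → (Fin n → Fin k) → Fin k
  | 0, G, _ => c G
  | n + 1, G, _ => ((hL n).false G).elim

/-- The structure with the given relations and constants. -/
@[reducible] def dec {k : ℕ} (hL : ∀ n, IsEmpty (L.Functions (n + 1))) (Q : XS L k) :
    L.Structure (Fin k) where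
  funMap {n} G v := fnc hL Q.2 n G v
  RelMap {n} R v := Q.1 n R v = true

theorem term_cont {k : ℕ} (hL : ∀ n, IsEmpty (L.Functions (n + 1))) {α : Type} (t : L.Term α)
    (v : α → Fin k) : Continuous fun Q : XS L k => @Term.realize L (Fin k) (dec hL Q) α v t := by
  cases t with
  | var x => exact continuous_const
  | @func n G ts =>
    cases n with
    | zero =>
      show Continuous fun Q : XS L k => Q.2 G
      exact (continuous_apply G).comp continuous_snd
    | succ n => exact ((hL n).false G).elim

theorem form_clopen {k : ℕ} (hL : ∀ n, IsEmpty (L.Functions (n + 1))) {α : Type} {n : ℕ}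
    (φ : L.BoundedFormula α n) : ∀ (v : α → Fin k) (xs : Fin n → Fin k),
    IsClopen {Q : XS L k | @BoundedFormula.Realize L (Fin k) (dec hL Q) α n φ v xs} := by
  induction φ with
  | falsum => intro v xs; exact isClopen_empty
  | equal t₁ t₂ =>
    intro v xs
    have h1 := term_cont hL t₁ (Sum.elim v xs)
    have h2 := term_cont hL t₂ (Sum.elim v xs)
    have : Continuous fun Q : XS L k =>
      (@Term.realize L (Fin k) (dec hL Q) _ (Sum.elim v xs) t₁,
        @Term.realize L (Fin k) (dec hL Q) _ (Sum.elim v xs) t₂) := h1.prodMk h2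
    exact (isClopen_discrete {q : Fin k × Fin k | q.1 = q.2}).preimage this
  | @rel n l R ts =>
    intro v xs
    have h1 : Continuous fun Q : XS L k => fun i =>
        @Term.realize L (Fin k) (dec hL Q) _ (Sum.elim v xs) (ts i) :=
      continuous_pi fun i => term_cont hL (ts i) (Sum.elim v xs)
    have h2 : {Q : XS L k | @BoundedFormula.Realize L (Fin k) (dec hL Q) α n
        (BoundedFormula.rel R ts) v xs} = ⋃ u : Fin l → Fin k,
        ({Q : XS L k | (fun i => @Term.realize L (Fin k) (dec hL Q) _ (Sum.elim v xs) (ts i)) = u}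
          ∩ {Q : XS L k | Q.1 l R u = true}) := by
      ext Q
      simp only [mem_iUnion, mem_inter_iff, mem_setOf_eq]
      constructor
      · intro h
        exact ⟨_, rfl, h⟩
      · rintro ⟨u, rfl, h⟩
        exact h
    rw [h2]
    refine isClopen_iUnion_of_finite fun u => ?_
    refine ((isClopen_discrete ({u} : Set (Fin l → Fin k))).preimage h1).inter ?_
    have h3 : Continuous fun Q : XS L k => Q.1 l R u :=
      (continuous_apply u).comp ((continuous_apply R).comp ((continuous_apply l).comp
        continuous_fst))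
    exact (isClopen_discrete ({true} : Set Bool)).preimage h3
  | imp φ ψ ih1 ih2 =>
    intro v xs
    have : {Q : XS L k | @BoundedFormula.Realize L (Fin k) (dec hL Q) α _
        (BoundedFormula.imp φ ψ) v xs} =
        {Q : XS L k | @BoundedFormula.Realize L (Fin k) (dec hL Q) α _ φ v xs}ᶜ ∪
        {Q : XS L k | @BoundedFormula.Realize L (Fin k) (dec hL Q) α _ ψ v xs} := by
      ext Q
      simp only [mem_setOf_eq, mem_union, mem_compl_iff]
      exact imp_iff_not_or
    rw [this]
    exact (ih1 v xs).compl.union (ih2 v xs)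
  | all φ ih =>
    intro v xs
    have : {Q : XS L k | @BoundedFormula.Realize L (Fin k) (dec hL Q) α _
        (BoundedFormula.all φ) v xs} =
        ⋂ b : Fin k, {Q : XS L k | @BoundedFormula.Realize L (Fin k) (dec hL Q) α _ φ v
          (Fin.snoc xs b)} := by
      ext Q
      simp only [mem_setOf_eq, mem_iInter]
      exact Iff.rfl
    rw [this]
    exact isClopen_iInter_of_finite fun b => ih v _

theorem mod_closed {k : ℕ} (hL : ∀ n, IsEmpty (L.Functions (n + 1))) (T : L.Theory) :
    IsClosed {Q : XS L k | @Theory.Model L (Fin k) (dec hL Q) T} := by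
  have : {Q : XS L k | @Theory.Model L (Fin k) (dec hL Q) T} =
      ⋂ φ ∈ T, {Q : XS L k | @BoundedFormula.Realize L (Fin k) (dec hL Q) Empty 0 φ
        default default} := by
    ext Q
    simp only [mem_setOf_eq, mem_iInter]
    constructor
    · intro h φ hφ
      exact h.realize_of_mem φ hφ
    · intro h
      exact @Theory.Model.mk L (Fin k) (dec hL Q) T fun φ hφ => h φ hφ
  rw [this]
  exact isClosed_biInter fun φ _ => (form_clopen hL φ _ _).isClosed

/-- The structure on `ℕ` above `Q`. -/
@[reducible] def up {k : ℕ} (hL : ∀ n, IsEmpty (L.Functions (n + 1))) (Q : XS L k) (p : ℕ → Fin k)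
    (s : Fin k → ℕ) : L.Structure ℕ :=
  blow (dec hL Q) p fun _ G v => s ((dec hL Q).funMap G (p ∘ v))

theorem up_sh {k : ℕ} (hL : ∀ n, IsEmpty (L.Functions (n + 1))) (Q : XS L k) (p : ℕ → Fin k)
    (s : Fin k → ℕ) (hps : ∀ a, p (s a) = a) : SH (up hL Q p s) (dec hL Q) p :=
  blow_sh _ _ _ fun _ _ _ => hps _

/-- Change of a finite structure by two maps. -/
def mv {k : ℕ} (w : (Fin k → Fin k) × (Fin k → Fin k)) (Q : XS L k) : XS L k :=
  (fun n R v => Q.1 n R (w.1 ∘ v), fun c => w.2 (Q.2 c))

theorem mv_cont {k : ℕ} (w : (Fin k → Fin k) × (Fin k → Fin k)) :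
    Continuous (mv w : XS L k → XS L k) := by
  refine Continuous.prodMk ?_ ?_
  · refine continuous_pi fun n => continuous_pi fun R => continuous_pi fun v => ?_
    exact (continuous_apply (w.1 ∘ v)).comp ((continuous_apply R).comp ((continuous_apply n).comp
        continuous_fst))
  · refine continuous_pi fun c => ?_
    exact (continuous_of_discreteTopology (f := w.2)).comp
      ((continuous_apply c).comp continuous_snd)

theorem iso_mv {k : ℕ} (hL : ∀ n, IsEmpty (L.Functions (n + 1))) (p : ℕ → Fin k)
    (s : Fin k → ℕ) (hps : ∀ a, p (s a) = a) (Q Q' : XS L k) (σ : ℕ ≃ ℕ)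
    (h : SH (up hL Q p s) (up hL Q' p s) σ) :
    Q' = mv (fun a => p (σ.symm (s a)), fun a => p (σ (s a))) Q := by
  refine Prod.ext ?_ ?_
  · funext n R v
    rw [Bool.eq_iff_iff]
    have h1 := (sh_symm h).rl n R (s ∘ v)
    have h2 : p ∘ (s ∘ v) = v := by funext i; exact hps _
    have h3 : (up hL Q' p s).RelMap R (s ∘ v) ↔ Q'.1 n R v = true := by
      show Q'.1 n R (p ∘ (s ∘ v)) = true ↔ _
      rw [h2]
    rw [← h3, h1]
    exact Iff.rfl
  · funext c
    have h1 := h.fn 0 c default
    have h2 : σ (s (Q.2 c)) = s (Q'.2 c) := h1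
    show Q'.2 c = p (σ (s (Q.2 c)))
    rw [h2, hps]

theorem caseB3 [Countable L.Symbols] (hL : ∀ n, IsEmpty (L.Functions (n + 1)))
    (hc : Finite (L.Functions 0)) (T : L.Theory) (hT : ∀ φ ∈ T, EqFree φ)
    (hfin : ∀ S : L.Structure ℕ, @Theory.Model L ℕ S T → Finite (Quotient (st S))) :
    (∃ g : ℕ → L.Structure ℕ, ∀ S : L.Structure ℕ, @Theory.Model L ℕ S T →
      ∃ n : ℕ, Nonempty (@FirstOrder.Language.Equiv L ℕ ℕ S (g n))) ∨
    (∃ f : (ℕ → Bool) → L.Structure ℕ, (∀ x, @Theory.Model L ℕ (f x) T) ∧ Fam f) := by
  classical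
  haveI hcr : ∀ n, Countable (L.Relations n) := fun n => by
    have : Function.Injective (fun R : L.Relations n => (Sum.inr ⟨n, R⟩ : L.Symbols)) := by
      intro R R' h
      simpa using h
    exact this.countable
  haveI hcf : Countable (L.Functions 0) := Finite.to_countable
  by_cases hcount : ∀ k : ℕ, {Q : XS L (k + 1) | @Theory.Model L (Fin (k + 1)) (dec hL Q) T}.Countable
  · left
    -- representatives of the maps
    let KK : (k : ℕ) → Set (XS L (k + 1)) := fun k =>
      {Q : XS L (k + 1) | @Theory.Model L (Fin (k + 1)) (dec hL Q) T}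
    let J := Σ k : ℕ, (Fin (k + 1) → ℕ) × (KK k)
    haveI : ∀ k, Countable (KK k) := fun k => (hcount k).to_subtype
    haveI : Countable J := inferInstance
    let good : (k : ℕ) → (Fin (k + 1) → ℕ) → (ℕ → Fin (k + 1)) × (Fin (k + 1) → ℕ) → Prop :=
      fun k m w => (∀ a, w.1 (w.2 a) = a) ∧ ∀ a, Nat.card {i // w.1 i = a} = m a
    let ch : (k : ℕ) → (Fin (k + 1) → ℕ) → (ℕ → Fin (k + 1)) × (Fin (k + 1) → ℕ) := fun k m =>
      if h : ∃ w, good k m w then h.choose else (fun _ => 0, fun _ => 0)
    have hch : ∀ k m, (∃ w, good k m w) → good k m (ch k m) := by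
      intro k m h
      show good k m (if h : ∃ w, good k m w then h.choose else _)
      rw [dif_pos h]
      exact h.choose_spec
    let F : J → L.Structure ℕ := fun j => up hL j.2.2.1 (ch j.1 j.2.1).1 (ch j.1 j.2.1).2
    have hF : ∀ S : L.Structure ℕ, @Theory.Model L ℕ S T → ∃ j, ∃ σ : ℕ ≃ ℕ, SH S (F j) σ := by
      intro S hS
      have hq := hfin S hS
      -- the finer equivalence relation
      let cst : ℕ → Prop := fun x => ∃ c : L.Functions 0, S.funMap c default = x
      have hcst : {x | cst x}.Finite := Set.finite_range fun c : L.Functions 0 =>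
        S.funMap c (default : Fin 0 → ℕ)
      let r : Setoid ℕ :=
        { r := fun x y => x = y ∨ (Ind S x y ∧ ¬ cst x ∧ ¬ cst y)
          iseqv := by
            refine ⟨fun x => Or.inl rfl, ?_, ?_⟩
            · rintro x y (rfl | ⟨h1, h2, h3⟩)
              · exact Or.inl rfl
              · exact Or.inr ⟨ind_symm h1, h3, h2⟩
            · rintro x y z (rfl | ⟨h1, h2, h3⟩) (rfl | ⟨h4, h5, h6⟩)
              · exact Or.inl rfl
              · exact Or.inr ⟨h4, h5, h6⟩
              · exact Or.inr ⟨h1, h2, h3⟩
              · exact Or.inr ⟨ind_trans h1 h4, h2, h6⟩ }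
      have hrfin : Finite (Quotient r) := by
        haveI := hq
        haveI : Finite {x | cst x} := hcst
        let F' : ℕ → Quotient (st S) ⊕ {x | cst x} := fun x =>
          if h : cst x then Sum.inr ⟨x, h⟩ else Sum.inl (Quotient.mk (st S) x)
        let G' : Quotient r → Quotient (st S) ⊕ {x | cst x} := fun a => F' a.out
        refine Finite.of_injective G' ?_
        intro a b hab
        have h0 : F' a.out = F' b.out := hab
        have h1 : r a.out b.out := by
          show _ ∨ _
          simp only [F'] at h0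
          split_ifs at h0 with h2 h3 h3
          · left
            have := Sum.inr_injective h0
            exact congrArg Subtype.val this
          · right
            have := Sum.inl_injective h0
            exact ⟨Quotient.exact (s := st S) this, h2, h3⟩
        rw [← Quotient.out_eq a, ← Quotient.out_eq b]
        exact Quotient.sound h1
      have hrne : Nonempty (Quotient r) := ⟨Quotient.mk r 0⟩
      obtain ⟨k, ⟨e⟩⟩ : ∃ k, Nonempty (Quotient r ≃ Fin (k + 1)) := by
        obtain ⟨n, ⟨e⟩⟩ := Finite.exists_equiv_fin (Quotient r)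
        cases n with
        | zero => exact (e hrne.some).elim0
        | succ n => exact ⟨n, ⟨e⟩⟩
      let p : ℕ → Fin (k + 1) := fun x => e (Quotient.mk r x)
      let s : Fin (k + 1) → ℕ := fun a => (e.symm a).out
      have hps : ∀ a, p (s a) = a := by
        intro a
        show e (Quotient.mk r (e.symm a).out) = a
        rw [Quotient.out_eq, e.apply_symm_apply]
      have hp : ∀ x y, p x = p y ↔ (x = y ∨ (Ind S x y ∧ ¬ cst x ∧ ¬ cst y)) := by
        intro x y
        show e _ = e _ ↔ _
        rw [e.apply_eq_iff_eq]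
        exact Quotient.eq (r := r)
      have hpi : ∀ x y, p x = p y → Ind S x y := by
        intro x y h
        rcases (hp x y).1 h with rfl | h
        · exact ind_refl S x
        · exact h.1
      let Q : XS L (k + 1) := (fun n R v => decide (S.RelMap R (s ∘ v)),
        fun c => p (S.funMap c default))
      have hSQ : SH S (dec hL Q) p := by
        constructor
        · intro n G v
          cases n with
          | zero =>
            show p (S.funMap G v) = p (S.funMap G default)
            rw [Subsingleton.elim v default]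
          | succ n => exact ((hL n).false G).elim
        · intro n R v
          show _ ↔ decide (S.RelMap R (s ∘ (p ∘ v))) = true
          rw [decide_eq_true_iff]
          refine ind_rl S R v _ fun i => ?_
          exact hpi _ _ (hps _).symm
      have hpsurj : Function.Surjective p := fun a => ⟨s a, hps a⟩
      have hQ : Q ∈ KK k := (model_iff hSQ hpsurj hT).1 hS
      let m : Fin (k + 1) → ℕ := fun a => Nat.card {i // p i = a}
      have hg : good k m (ch k m) := hch k m ⟨(p, s), hps, fun a => rfl⟩
      obtain ⟨σ, hσ⟩ := conj p (ch k m).1 (fun a => (hg.2 a).symm) hpsurj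
        (fun a => ⟨(ch k m).2 a, hg.1 a⟩)
      refine ⟨⟨k, m, ⟨Q, hQ⟩⟩, σ, ?_, ?_⟩
      · intro n G v
        cases n with
        | zero =>
          show σ (S.funMap G v) = (ch k m).2 (p (S.funMap G default))
          rw [Subsingleton.elim v default]
          set x := S.funMap G (default : Fin 0 → ℕ) with hx
          -- the fibre is a singleton
          have hsing : ∀ y, p y = p x → y = x := by
            intro y hy
            rcases (hp y x).1 hy with h | h
            · exact h
            · exact absurd ⟨G, hx.symm⟩ h.2.2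
          have hone : Nat.card {i // p i = p x} = 1 := by
            rw [Nat.card_eq_one_iff_unique]
            exact ⟨⟨fun a b => Subtype.ext ((hsing _ a.2).trans (hsing _ b.2).symm)⟩,
              ⟨⟨x, rfl⟩⟩⟩
          have hone' : Nat.card {i // (ch k m).1 i = p x} = 1 := by
            rw [hg.2]; exact hone
          rw [Nat.card_eq_one_iff_unique] at hone'
          obtain ⟨hsub, -⟩ := hone'
          have := hsub.elim ⟨σ x, hσ x⟩ ⟨(ch k m).2 (p x), hg.1 _⟩
          exact congrArg Subtype.val this
        | succ n => exact ((hL n).false G).elim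
      · intro n R v
        rw [hSQ.rl]
        show _ ↔ (dec hL Q).RelMap R ((ch k m).1 ∘ (σ ∘ v))
        have : (ch k m).1 ∘ (σ ∘ v) = p ∘ v := by
          funext i; exact hσ _
        rw [this]
    by_cases hJ : Nonempty J
    · obtain ⟨en, hen⟩ := exists_surjective_nat J
      refine ⟨fun n => F (en n), fun S hS => ?_⟩
      obtain ⟨j, σ, h⟩ := hF S hS
      obtain ⟨n, rfl⟩ := hen j
      exact ⟨n, iso_iff.2 ⟨σ, h⟩⟩
    · refine ⟨fun _ => ⟨fun {n} f _ => 0, fun _ _ => True⟩, fun S hS => ?_⟩
      obtain ⟨j, -⟩ := hF S hS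
      exact absurd ⟨j⟩ hJ
  · right
    push Not at hcount
    obtain ⟨k, hk⟩ := hcount
    have hcl := mod_closed (k := k + 1) hL T
    haveI : PolishSpace (XS L (k + 1)) := inferInstance
    obtain ⟨f, hf1, hf2, hf3⟩ := hcl.exists_nat_bool_injection_of_not_countable hk
    let l : List (XS L (k + 1) → XS L (k + 1)) :=
      (Finset.univ : Finset ((Fin (k + 1) → Fin (k + 1)) × (Fin (k + 1) → Fin (k + 1)))).toList.map
        mv
    obtain ⟨g, g1, g2, g3⟩ := shrink l (by
      intro h hh
      obtain ⟨w, -, rfl⟩ := List.mem_map.1 hh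
      exact mv_cont w) f hf2 hf3
    let p : ℕ → Fin (k + 1) := fun n => Fin.ofNat (k + 1) n
    let s : Fin (k + 1) → ℕ := fun a => a
    have hps : ∀ a, p (s a) = a := by
      intro a
      show Fin.ofNat (k + 1) (a : ℕ) = a
      simp
    have hmem : ∀ x, @Theory.Model L (Fin (k + 1)) (dec hL (f (g x))) T := fun x =>
      hf1 ⟨g x, rfl⟩
    have hfg : Continuous fun x => f (g x) := hf2.comp g1
    refine ⟨fun x => up hL (f (g x)) p s, fun x => ?_, ⟨?_, ?_, ?_⟩⟩
    · exact (model_iff (up_sh hL _ p s hps) (fun a => ⟨s a, hps a⟩) hT).2 (hmem x)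
    · intro x y hxy
      obtain ⟨σ, h⟩ := iso_iff.1 hxy
      have h1 := iso_mv hL p s hps _ _ σ h
      refine g3 _ ?_ x y h1
      exact List.mem_map.2 ⟨_, Finset.mem_toList.2 (Finset.mem_univ _), rfl⟩
    · intro n R a
      have h4 : Continuous fun Q : XS L (k + 1) => Q.1 n R (p ∘ a) :=
        (continuous_apply (p ∘ a)).comp ((continuous_apply R).comp ((continuous_apply n).comp
          continuous_fst))
      have h3 : Continuous fun x => (f (g x)).1 n R (p ∘ a) := h4.comp hfg
      exact (isClopen_discrete ({true} : Set Bool)).preimage h3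
    · intro n G a b
      cases n with
      | zero =>
        have h3 : Continuous fun x => s ((f (g x)).2 G) :=
          (continuous_of_discreteTopology (f := s)).comp
            (((continuous_apply G).comp continuous_snd).comp hfg)
        exact (isOpen_discrete ({b} : Set ℕ)).preimage h3
      | succ n => exact ((hL n).false G).elim

end Pool.Agent.Helper11x.EF
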