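import Pool.Agent.Helper11x.EF.CaseB1
import Pool.Agent.Helper11x.EF.CaseB3

set_option autoImplicit false

/-!
# Vaught's conjecture without equality
-/

namespace Pool.Agent.Helper11x.EF

open FirstOrder FirstOrder.Language Set Function

theorem eqfree_fo (L : FirstOrder.Language.{0, 0}) (hL : Countable L.Symbols) (T : L.Theory)
    (hT : ∀ φ ∈ T, EqFree φ) :
    (∃ g : ℕ → L.Structure ℕ, ∀ S : L.Structure ℕ, @Theory.Model L ℕ S T →
      ∃ n : ℕ, Nonempty (@FirstOrder.Language.Equiv L ℕ ℕ S (g n))) ∨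
    (∃ f : (ℕ → Bool) → L.Structure ℕ, (∀ x, @Theory.Model L ℕ (f x) T) ∧ Fam f) := by
  by_cases hA : ∃ S : L.Structure ℕ, @Theory.Model L ℕ S T ∧ Infinite (Quotient (st S))
  · obtain ⟨S, hS, hi⟩ := hA
    obtain ⟨Q, p, q, f, h1, h2, h3, h4, h5⟩ := caseA S hi
    right
    have hQ := (model_iff h2 h1 hT).1 hS
    exact ⟨f, fun x => (model_iff (h4 x) (h3 x) hT).2 hQ, h5⟩
  · have hfin : ∀ S : L.Structure ℕ, @Theory.Model L ℕ S T → Finite (Quotient (st S)) := by
      intro S hS
      by_contra h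
      exact hA ⟨S, hS, not_finite_iff_infinite.1 h⟩
    by_cases hne : ∃ S : L.Structure ℕ, @Theory.Model L ℕ S T
    · obtain ⟨S, hS⟩ := hne
      by_cases hF : ∃ n, Nonempty (L.Functions (n + 1))
      · obtain ⟨n, ⟨F⟩⟩ := hF
        obtain ⟨N, Q, p, q, f, h1, h2, h3, h4, h5⟩ := caseB1 S (hfin S hS) n F
        right
        have hQ := (model_iff h2 h1 hT).1 hS
        exact ⟨f, fun x => (model_iff (h4 x) (h3 x) hT).2 hQ, h5⟩
      · by_cases hC : Finite (L.Functions 0)
        · refine caseB3 (fun n => ?_) hC T hT hfin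
          by_contra h
          exact hF ⟨n, not_isEmpty_iff.1 h⟩
        · obtain ⟨N, Q, p, q, f, h1, h2, h3, h4, h5⟩ := caseB2 S (hfin S hS)
            (not_finite_iff_infinite.1 hC)
          right
          have hQ := (model_iff h2 h1 hT).1 hS
          exact ⟨f, fun x => (model_iff (h4 x) (h3 x) hT).2 hQ, h5⟩
    · left
      exact ⟨fun _ => ⟨fun {n} f _ => 0, fun _ _ => True⟩, fun S hS => absurd ⟨S, hS⟩ hne⟩

/-! ### Borel classes of relational structures -/

/-- Relational structures on `ℕ` with relations of arities `a 0, a 1, ...`. -/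
abbrev Str (a : ℕ → ℕ) : Type := (i : ℕ) → (Fin (a i) → ℕ) → Bool

/-- Isomorphism of structures. -/
def Iso {a : ℕ → ℕ} (x y : Str a) : Prop :=
  ∃ σ : Equiv.Perm ℕ, ∀ (i : ℕ) (v : Fin (a i) → ℕ), y i (⇑σ ∘ v) = x i v

/-- The relational language. -/
def LA (a : ℕ → ℕ) : FirstOrder.Language.{0, 0} := ⟨fun _ => Empty, fun n => {i : ℕ // a i = n}⟩

/-- The structure. -/
@[reducible] def toS {a : ℕ → ℕ} (x : Str a) : (LA a).Structure ℕ where
  funMap f := Empty.elim f
  RelMap R v := x R.1 (fun j => v (Fin.cast R.2 j)) = true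

open Classical in
/-- The code of a structure. -/
noncomputable def frS {a : ℕ → ℕ} (S : (LA a).Structure ℕ) : Str a :=
  fun i v => decide (S.RelMap (n := a i) (⟨i, rfl⟩ : {j : ℕ // a j = a i}) v)

theorem frS_toS {a : ℕ → ℕ} (x : Str a) : frS (toS x) = x := by
  classical
  funext i v
  rw [Bool.eq_iff_iff]
  unfold frS
  rw [decide_eq_true_iff]
  exact Iff.rfl

theorem sh_of {a : ℕ → ℕ} {S S' : (LA a).Structure ℕ} {p : ℕ → ℕ}
    (h : ∀ i v, frS S i v = frS S' i (p ∘ v)) : SH S S' p := by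
  constructor
  · intro n f; exact Empty.elim f
  · rintro n ⟨i, rfl⟩ v
    have := h i v
    unfold frS at this
    simpa using this

theorem of_sh {a : ℕ → ℕ} {S S' : (LA a).Structure ℕ} {p : ℕ → ℕ} (h : SH S S' p) (i : ℕ)
    (v : Fin (a i) → ℕ) : frS S i v = frS S' i (p ∘ v) := by
  unfold frS
  have := h.rl (a i) (⟨i, rfl⟩ : {j : ℕ // a j = a i}) v
  simpa using this

theorem borel_perfect {X : Type} [TopologicalSpace X] [PolishSpace X] [MeasurableSpace X]
    [BorelSpace X] {B : Set X} (hB : MeasurableSet B) (hc : ¬ B.Countable) :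
    ∃ f : (ℕ → Bool) → X, range f ⊆ B ∧ Continuous f ∧ Function.Injective f := by
  obtain ⟨t', ht', hp, hcl, -⟩ := hB.isClopenable
  obtain ⟨f, h1, h2, h3⟩ := @IsClosed.exists_nat_bool_injection_of_not_countable X t' hp B hcl hc
  refine ⟨f, h1, ?_, h3⟩
  exact (continuous_iff_le_induced.2 (le_trans (continuous_iff_le_induced.1 h2)
    (induced_mono ht')))

/-- Finite structures. -/
abbrev YS (a : ℕ → ℕ) (k : ℕ) : Type := (i : ℕ) → (Fin (a i) → Fin (k + 1)) → Bool

/-- The structure above `Q`. -/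
def U {a : ℕ → ℕ} {k : ℕ} (Q : YS a k) (p : ℕ → Fin (k + 1)) : Str a := fun i v => Q i (p ∘ v)

theorem U_cont {a : ℕ → ℕ} {k : ℕ} (p : ℕ → Fin (k + 1)) :
    Continuous fun Q : YS a k => U Q p :=
  continuous_pi fun i => continuous_pi fun v =>
    (continuous_apply (p ∘ v)).comp (continuous_apply i)

/-- Change of a finite structure by a map. -/
def mvY {a : ℕ → ℕ} {k : ℕ} (w : Fin (k + 1) → Fin (k + 1)) (Q : YS a k) : YS a k :=
  fun i v => Q i (w ∘ v)

theorem mvY_cont {a : ℕ → ℕ} {k : ℕ} (w : Fin (k + 1) → Fin (k + 1)) :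
    Continuous (mvY w : YS a k → YS a k) :=
  continuous_pi fun i => continuous_pi fun v =>
    (continuous_apply (w ∘ v)).comp (continuous_apply i)

/-- Membership of the structure above `Q` does not depend on the map. -/
theorem U_indep {a : ℕ → ℕ} {K : Set (Str a)}
    (hK : ∀ (x y : Str a) (p : ℕ → ℕ), Function.Surjective p → (∀ i v, x i v = y i (p ∘ v)) →
      (x ∈ K ↔ y ∈ K)) {k : ℕ} (Q : YS a k) (p p' : ℕ → Fin (k + 1)) (hp : Surjective p)
    (hp' : Surjective p') : U Q p ∈ K ↔ U Q p' ∈ K := by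
  let u : ℕ → ℕ := fun n => n.unpair.1
  have hu : Surjective u := fun n => ⟨Nat.pair n 0, by simp [u]⟩
  have h1 : ∀ p : ℕ → Fin (k + 1), (U Q (p ∘ u) ∈ K ↔ U Q p ∈ K) := fun p =>
    hK _ _ u hu fun i v => rfl
  have hinf : ∀ (p : ℕ → Fin (k + 1)), Surjective p → ∀ c, Nat.card {m // (p ∘ u) m = c} = 0 := by
    intro p hp c
    obtain ⟨n, hn⟩ := hp c
    haveI : Infinite {m // (p ∘ u) m = c} := by
      refine Infinite.of_injective (fun j : ℕ => (⟨Nat.pair n j, ?_⟩ : {m // (p ∘ u) m = c})) ?_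
      · show p (u (Nat.pair n j)) = c
        simp [u, hn]
      · intro i j hij
        have := congrArg (fun t : {m // (p ∘ u) m = c} => t.1.unpair.2) hij
        simpa using this
    exact Nat.card_eq_zero_of_infinite
  obtain ⟨σ, hσ⟩ := conj (p ∘ u) (p' ∘ u) (fun c => by rw [hinf p hp, hinf p' hp'])
    (hp.comp hu) (hp'.comp hu)
  have h2 : U Q (p ∘ u) ∈ K ↔ U Q (p' ∘ u) ∈ K := by
    refine hK _ _ σ σ.surjective fun i v => ?_
    show Q i _ = Q i _
    congr 1
    funext j
    exact (hσ (v j)).symm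
  rw [← h1 p, h2, h1 p']

theorem eqfree_borel (a : ℕ → ℕ) (K : Set (Str a)) (hm : MeasurableSet K)
    (hK : ∀ (x y : Str a) (p : ℕ → ℕ), Function.Surjective p → (∀ i v, x i v = y i (p ∘ v)) →
      (x ∈ K ↔ y ∈ K)) :
    (∃ f : ℕ → Str a, ∀ x ∈ K, ∃ n, Iso (f n) x) ∨
    (∃ g : (ℕ → Bool) → Str a, Continuous g ∧ (∀ c, g c ∈ K) ∧
      ∀ c d, Iso (g c) (g d) → c = d) := by
  classical
  by_cases hA : ∃ x ∈ K, Infinite (Quotient (st (toS x)))
  · obtain ⟨x, hx, hi⟩ := hA
    obtain ⟨Q, p, q, f, h1, h2, h3, h4, h5⟩ := caseA (toS x) hi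
    right
    have hQ : frS Q ∈ K := by
      refine (hK x (frS Q) p h1 fun i v => ?_).1 hx
      have := of_sh h2 i v
      rwa [frS_toS] at this
    refine ⟨fun c => frS (f c), ?_, fun c => ?_, ?_⟩
    · refine continuous_pi fun i => continuous_pi fun v => ?_
      rw [continuous_discrete_rng]
      intro b
      have hcl := h5.rl (a i) (⟨i, rfl⟩ : {j : ℕ // a j = a i}) v
      cases b with
      | true =>
        have : (fun c => frS (f c) i v) ⁻¹' {true} = {x : ℕ → Bool |
            @Structure.RelMap (LA a) ℕ (f x) (a i) (⟨i, rfl⟩ : {j : ℕ // a j = a i}) v} := by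
          ext c
          simp [frS]
        rw [this]
        exact hcl.isOpen
      | false =>
        have : (fun c => frS (f c) i v) ⁻¹' {false} = {x : ℕ → Bool |
            @Structure.RelMap (LA a) ℕ (f x) (a i) (⟨i, rfl⟩ : {j : ℕ // a j = a i}) v}ᶜ := by
          ext c
          simp [frS]
        rw [this]
        exact hcl.compl.isOpen
    · exact (hK (frS (f c)) (frS Q) (q c) (h3 c) fun i v => of_sh (h4 c) i v).2 hQ
    · rintro c d ⟨σ, hσ⟩
      refine h5.inj c d (iso_iff.2 ⟨σ, sh_of fun i v => (hσ i v).symm⟩)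
  · have hfin : ∀ x ∈ K, Finite (Quotient (st (toS x))) := by
      intro S hS
      by_contra h
      exact hA ⟨S, hS, not_finite_iff_infinite.1 h⟩
    let p0 : (k : ℕ) → ℕ → Fin (k + 1) := fun k n => Fin.ofNat (k + 1) n
    have hp0 : ∀ k, Surjective (p0 k) := fun k a => ⟨(a : ℕ), by simp [p0]⟩
    let KK : (k : ℕ) → Set (YS a k) := fun k => {Q | U Q (p0 k) ∈ K}
    have hKKm : ∀ k, MeasurableSet (KK k) := fun k => (U_cont (p0 k)).measurable hm
    by_cases hcount : ∀ k, (KK k).Countable
    · left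
      let J := Σ k : ℕ, (Fin (k + 1) → ℕ) × (KK k)
      haveI : ∀ k, Countable (KK k) := fun k => (hcount k).to_subtype
      haveI : Countable J := inferInstance
      let good : (k : ℕ) → (Fin (k + 1) → ℕ) → (ℕ → Fin (k + 1)) → Prop :=
        fun k m w => Surjective w ∧ ∀ a, Nat.card {i // w i = a} = m a
      let ch : (k : ℕ) → (Fin (k + 1) → ℕ) → (ℕ → Fin (k + 1)) := fun k m =>
        if h : ∃ w, good k m w then h.choose else fun _ => 0
      have hch : ∀ k m, (∃ w, good k m w) → good k m (ch k m) := by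
        intro k m h
        show good k m (if h : ∃ w, good k m w then h.choose else _)
        rw [dif_pos h]
        exact h.choose_spec
      let F : J → Str a := fun j => U j.2.2.1 (ch j.1 j.2.1)
      have hF : ∀ x ∈ K, ∃ j, Iso (F j) x := by
        intro x hx
        have hq := hfin x hx
        have hrne : Nonempty (Quotient (st (toS x))) := ⟨Quotient.mk (st (toS x)) 0⟩
        obtain ⟨k, ⟨e⟩⟩ : ∃ k, Nonempty (Quotient (st (toS x)) ≃ Fin (k + 1)) := by
          obtain ⟨n, ⟨e⟩⟩ := Finite.exists_equiv_fin (Quotient (st (toS x)))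
          cases n with
          | zero => exact (e hrne.some).elim0
          | succ n => exact ⟨n, ⟨e⟩⟩
        let p : ℕ → Fin (k + 1) := fun m => e (Quotient.mk (st (toS x)) m)
        let s : Fin (k + 1) → ℕ := fun c => (e.symm c).out
        have hps : ∀ a, p (s a) = a := by
          intro a
          show e (Quotient.mk (st (toS x)) (e.symm a).out) = a
          rw [Quotient.out_eq, e.apply_symm_apply]
        have hpi : ∀ u v, p u = p v → Ind (toS x) u v := by
          intro u v h
          exact Quotient.exact (s := st (toS x)) (e.injective h)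
        have hpsurj : Surjective p := fun c => ⟨s c, hps c⟩
        let Q : YS a k := fun i v => x i (s ∘ v)
        have hxQ : x = U Q p := by
          funext i v
          show x i v = x i (s ∘ (p ∘ v))
          have h := ind_rl (toS x) (n := a i) (⟨i, rfl⟩ : {j : ℕ // a j = a i}) v (s ∘ (p ∘ v))
            (fun j => hpi _ _ (hps _).symm)
          rw [Bool.eq_iff_iff]
          exact h
        have hQ : Q ∈ KK k := by
          show U Q (p0 k) ∈ K
          rw [U_indep hK Q (p0 k) p (hp0 k) hpsurj, ← hxQ]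
          exact hx
        let m : Fin (k + 1) → ℕ := fun a => Nat.card {i // p i = a}
        have hg : good k m (ch k m) := hch k m ⟨p, hpsurj, fun a => rfl⟩
        obtain ⟨σ, hσ⟩ := conj (ch k m) p (fun a => hg.2 a) hg.1 hpsurj
        refine ⟨⟨k, m, ⟨Q, hQ⟩⟩, σ, fun i v => ?_⟩
        rw [hxQ]
        show Q i (p ∘ (σ ∘ v)) = Q i (ch k m ∘ v)
        congr 1
        funext j
        exact hσ _
      by_cases hJ : Nonempty J
      · obtain ⟨en, hen⟩ := exists_surjective_nat J
        refine ⟨fun n => F (en n), fun S hS => ?_⟩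
        obtain ⟨j, h⟩ := hF S hS
        obtain ⟨n, rfl⟩ := hen j
        exact ⟨n, h⟩
      · refine ⟨fun _ _ _ => true, fun S hS => ?_⟩
        obtain ⟨j, -⟩ := hF S hS
        exact absurd ⟨j⟩ hJ
    · right
      push Not at hcount
      obtain ⟨k, hk⟩ := hcount
      haveI : PolishSpace (YS a k) := inferInstance
      obtain ⟨f, hf1, hf2, hf3⟩ := borel_perfect (hKKm k) hk
      let l : List (YS a k → YS a k) :=
        (Finset.univ : Finset (Fin (k + 1) → Fin (k + 1))).toList.map mvY
      obtain ⟨g, g1, g2, g3⟩ := shrink l (by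
        intro h hh
        obtain ⟨w, -, rfl⟩ := List.mem_map.1 hh
        exact mvY_cont w) f hf2 hf3
      let s : Fin (k + 1) → ℕ := fun a => a
      have hps : ∀ a, p0 k (s a) = a := by
        intro a
        show Fin.ofNat (k + 1) (a : ℕ) = a
        simp
      refine ⟨fun x => U (f (g x)) (p0 k), (U_cont (p0 k)).comp (hf2.comp g1),
        fun x => hf1 ⟨g x, rfl⟩, ?_⟩
      rintro c d ⟨σ, hσ⟩
      have h1 : f (g d) = mvY (fun a => p0 k (σ.symm (s a))) (f (g c)) := by
        funext i v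
        have h2 := hσ i (fun j => σ.symm (s (v j)))
        have h3 : U (f (g d)) (p0 k) i (σ ∘ fun j => σ.symm (s (v j))) = f (g d) i v := by
          show f (g d) i _ = _
          congr 1
          funext j
          show p0 k (σ (σ.symm (s (v j)))) = v j
          rw [σ.apply_symm_apply, hps]
        exact h3.symm.trans h2
      exact g3 _ (List.mem_map.2 ⟨_, Finset.mem_toList.2 (Finset.mem_univ _), rfl⟩) c d h1

end Pool.Agent.Helper11x.EF
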